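import Pool.Agent.helper3.T6R.Spec

set_option autoImplicit false

namespace Pool.Agent.T6R

open Finset NumberField Pool.Agent.helper3.FT Pool.Agent.helper47.RA Pool.Agent.T5 Pool.Agent.T6
open scoped nonZeroDivisors

section
variable {K : Type} [Field K] [NumberField K]

theorem RBA_neg (Q : QF K) (a : 𝓞 K) : Q.Y (-a) = - Q.Y a := by
  have := Q.Y_int_mul (-1) a
  push_cast at this
  simpa using this

theorem RBA_self (Q : QF K) (a : 𝓞 K) : Q.Y (Q.cj a * a) = 0 := by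
  obtain ⟨n, hn, -⟩ := Q.exists_norm a
  rw [mul_comm, hn, Q.Y_int]

theorem RBA_swap (Q : QF K) (a b : 𝓞 K) : Q.Y (Q.cj b * a) = - Q.Y (Q.cj a * b) := by
  rw [← Q.Y_cj, map_mul, Q.cj_cj, mul_comm]

theorem RBA_Y (Q : QF K) (e₁ e₂ : 𝓞 K) (j x x' : ℤ) :
    Q.Y (Q.cj ((x : 𝓞 K) * e₁ + j * e₂) * ((x' : 𝓞 K) * e₁ + j * e₂)) =
      j * (x - x') * Q.Y (Q.cj e₁ * e₂) := by
  have h : Q.cj ((x : 𝓞 K) * e₁ + j * e₂) * ((x' : 𝓞 K) * e₁ + j * e₂) =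
      ((x * x' : ℤ) : 𝓞 K) * (Q.cj e₁ * e₁) + ((x * j : ℤ) : 𝓞 K) * (Q.cj e₁ * e₂) +
        ((j * x' : ℤ) : 𝓞 K) * (Q.cj e₂ * e₁) + ((j * j : ℤ) : 𝓞 K) * (Q.cj e₂ * e₂) := by
    rw [map_add, map_mul, map_mul, Q.cj_int, Q.cj_int]
    push_cast
    ring
  rw [h, Q.Y_add, Q.Y_add, Q.Y_add, Q.Y_int_mul, Q.Y_int_mul, Q.Y_int_mul, Q.Y_int_mul,
    RBA_self, RBA_self, RBA_swap Q e₁ e₂]
  ring

theorem RBA_abs (Q : QF K) (b b' α α' : 𝓞 K) (h : b = α ∨ b = -α) (h' : b' = α' ∨ b' = -α') :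
    |Q.Y (Q.cj b * b')| = |Q.Y (Q.cj α * α')| := by
  rcases h with rfl | rfl <;> rcases h' with rfl | rfl
  · rfl
  · rw [mul_neg, RBA_neg, abs_neg]
  · rw [map_neg, neg_mul, RBA_neg, abs_neg]
  · rw [map_neg, neg_mul_neg]

theorem RBA_ne (Q : QF K) (a : Ideal (𝓞 K)) (θ : 𝓞 K) (ha : a ≠ ⊥) (hnp : ¬ a.IsPrincipal)
    (hθ : Ideal.span {θ} = a ^ 5) : Q.Y θ ≠ 0 := by
  intro hY
  obtain ⟨c, hc⟩ := (Q.Y_eq_zero_iff θ).1 hY
  have h1 : Q.bar a = a := by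
    apply Pool.Agent.helper3.FT.pow_inj _ _ 5 (by norm_num)
    rw [← Q.bar_pow, ← hθ, Q.bar_span, hc, Q.cj_int]
  have h2 : a * a = Ideal.span {(Ideal.absNorm a : 𝓞 K)} := by
    have h3 := Q.mul_bar a
    rw [h1] at h3
    exact h3
  have h4 : Ideal.span {θ} = Ideal.span {(Ideal.absNorm a : 𝓞 K) * (Ideal.absNorm a : 𝓞 K)} * a := by
    rw [hθ, ← Ideal.span_singleton_mul_span_singleton, ← h2]
    ring
  have hZ : (Ideal.absNorm a : 𝓞 K) ≠ 0 := by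
    rw [Nat.cast_ne_zero, Ne, Ideal.absNorm_eq_zero_iff]
    exact ha
  obtain ⟨y, -, hy⟩ := exists_div_aux θ _ (mul_ne_zero hZ hZ) a h4
  exact hnp ⟨⟨y, hy.symm⟩⟩

theorem RBA_dvd (Q : QF K) (F : Full Q) (θ : 𝓞 K) (h : F.α = θ ∨ F.α = -θ)
    (h0 : gd Q F.β F.γ ≠ 0) : ((gd Q F.β F.γ : ℕ) : ℤ) ∣ Q.Y θ := by
  have hd0 : ((gd Q F.β F.γ : ℕ) : ℤ) ≠ 0 := by exact_mod_cast h0
  have h5 := (F.gcd_dvd ((gd Q F.β F.γ : ℕ) : ℤ) hd0 (by unfold gd; exact Int.gcd_dvd_left ..)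
    (by unfold gd; exact Int.gcd_dvd_right ..)).2.2.1
  rcases h with h | h
  · rwa [h] at h5
  · rw [h, RBA_neg] at h5
    exact (dvd_neg.1 h5)

end

theorem RBA (hRGC : RGC_stmt) (hHLC : HLC_stmt) : RBA_stmt := by
  intro K _ _ Q a θ e₁ e₂ ha hna hθ hB j S H W hj hH hW hS hSS
  classical
  have hyt := RBA_ne Q a θ ha hna hθ
  choose F hFa hFβ hFα hFY hFd using hS
  have hdet : |Q.Y (Q.cj e₁ * e₂)| = (Ideal.absNorm a : ℤ) ^ 2 := by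
    rw [hB.det, map_pow]
    push_cast
    ring
  refine hHLC S (fun x => if h : x ∈ S then gd Q (F x h).β (F x h).γ else 0) (Q.Y θ) H (2 * W) hyt hH
    (by linarith) ?_ ?_
  · intro x hx
    have e : (if h : x ∈ S then gd Q (F x h).β (F x h).γ else 0) = gd Q (F x hx).β (F x hx).γ :=
      dif_pos hx
    beta_reduce
    rw [e]
    refine ⟨RBA_dvd Q (F x hx) θ (hFα x hx) ?_, hFd x hx⟩
    intro h0
    have h1 := hFd x hx
    rw [h0] at h1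
    push_cast at h1
    linarith
  · intro x hx x' hx' hne
    have e : (if h : x ∈ S then gd Q (F x h).β (F x h).γ else 0) = gd Q (F x hx).β (F x hx).γ :=
      dif_pos hx
    have e' : (if h : x' ∈ S then gd Q (F x' h).β (F x' h).γ else 0) = gd Q (F x' hx').β (F x' hx').γ :=
      dif_pos hx'
    beta_reduce
    rw [e, e']
    have hm : j * (x - x') ≠ 0 := mul_ne_zero hj (sub_ne_zero.2 hne)
    have h1 := hRGC K Q (F x hx) (F x' hx') ((hFa x hx).trans (hFa x' hx').symm) (hFY x hx) (hFY x' hx')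
      (j * (x - x')) hm (by
        rw [RBA_abs Q _ _ _ _ (hFβ x hx) (hFβ x' hx'), RBA_Y, abs_mul, hdet, hFa x hx])
    have h2 : (Nat.gcd (gd Q (F x hx).β (F x hx).γ)
        (gd Q (F x' hx').β (F x' hx').γ) : ℝ) ≤ 2 * |(j : ℝ) * (x - x')| := by
      have h3 : ((Nat.gcd (gd Q (F x hx).β (F x hx).γ)
        (gd Q (F x' hx').β (F x' hx').γ) : ℤ) : ℝ) ≤ ((2 * |j * (x - x')| : ℤ) : ℝ) := by
        exact_mod_cast h1
      push_cast at h3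
      exact h3
    exact h2.trans (by linarith [hSS x hx x' hx'])

end Pool.Agent.T6R
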